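import Pool.Agent.Q143.JN.PA3
import Pool.Agent.Q143.BT.Deg

/-!
# Automorphisms of the polynomial ring in two variables over a ring
-/

set_option autoImplicit false
set_option linter.unusedSectionVars false
set_option linter.style.haveILetI false

namespace Pool.Agent.Q143.RA

open Pool.Agent.Y462.SS Pool.Agent.Q152.WP Pool.Agent.Q143.JN Pool.Agent.Q143.BT

/-- the polynomial ring in two variables over a ring -/
abbrev PR (R : Type) [CommRing R] : Type := MvPolynomial (Fin 2) R

/-- the automorphisms of the polynomial ring in two variables over a ring -/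
abbrev AR (R : Type) [CommRing R] : Type := PR R ≃ₐ[R] PR R

section

variable {R : Type} [CommRing R]

theorem extR {φ ψ : AR R} (h : ∀ a, φ (MvPolynomial.X a) = ψ (MvPolynomial.X a)) : φ = ψ := by
  apply AlgEquiv.coe_toAlgHom_injective
  exact MvPolynomial.algHom_ext h

/-- an automorphism given by two inverse substitutions -/
noncomputable def mkR (s t : Fin 2 → PR R)
    (h1 : ∀ a, MvPolynomial.aeval s (t a) = MvPolynomial.X a)
    (h2 : ∀ a, MvPolynomial.aeval t (s a) = MvPolynomial.X a) : AR R :=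
  AlgEquiv.ofAlgHom (MvPolynomial.aeval s) (MvPolynomial.aeval t)
    (MvPolynomial.algHom_ext (fun a => by
      rw [AlgHom.comp_apply, MvPolynomial.aeval_X, h1]
      rfl))
    (MvPolynomial.algHom_ext (fun a => by
      rw [AlgHom.comp_apply, MvPolynomial.aeval_X, h2]
      rfl))

theorem mkR_X (s t : Fin 2 → PR R) (h1) (h2) (a : Fin 2) :
    mkR s t h1 h2 (MvPolynomial.X a) = s a := MvPolynomial.aeval_X _ _

/-- the `R`-automorphisms that fix the section `x` -/
def StR (x : Fin 2 → R) : Subgroup (AR R) where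
  carrier := {φ | ∀ p, MvPolynomial.eval x (φ p) = MvPolynomial.eval x p}
  one_mem' := fun p => rfl
  mul_mem' := fun {φ ψ} hφ hψ p => by
    change MvPolynomial.eval x (φ (ψ p)) = _
    rw [hφ, hψ]
  inv_mem' := fun {φ} hφ p => by
    have h1 := hφ (φ⁻¹ p)
    have h2 : φ (φ⁻¹ p) = p := by
      change (φ * φ⁻¹) p = p
      rw [mul_inv_cancel]
      rfl
    rw [← h1, h2]

/-- the Jacobian matrix along the section `x` -/
noncomputable def JR (x : Fin 2 → R) (φ : AR R) : Matrix (Fin 2) (Fin 2) R :=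
  Matrix.of fun a b => MvPolynomial.eval x (MvPolynomial.pderiv b (φ (MvPolynomial.X a)))

theorem JR_apply (x : Fin 2 → R) (φ : AR R) (a b : Fin 2) :
    JR x φ a b = MvPolynomial.eval x (MvPolynomial.pderiv b (φ (MvPolynomial.X a))) := rfl

theorem chainR {x : Fin 2 → R} {φ : AR R} (hφ : φ ∈ StR x) (p : PR R) (b : Fin 2) :
    MvPolynomial.eval x (MvPolynomial.pderiv b (φ p)) =
      ∑ c, MvPolynomial.eval x (MvPolynomial.pderiv c p) * JR x φ c b := by
  induction p using MvPolynomial.induction_on with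
  | C k =>
    have h1 : φ (MvPolynomial.C k) = MvPolynomial.C k := AlgEquiv.commutes φ k
    rw [h1, MvPolynomial.pderiv_C, map_zero]
    symm
    refine Finset.sum_eq_zero (fun c _ => ?_)
    rw [MvPolynomial.pderiv_C, map_zero, zero_mul]
  | add p q hp hq =>
    rw [map_add, map_add, map_add, hp, hq, ← Finset.sum_add_distrib]
    refine Finset.sum_congr rfl (fun c _ => ?_)
    rw [map_add, map_add, add_mul]
  | mul_X p n hp =>
    rw [map_mul, Derivation.leibniz, map_add, smul_eq_mul, smul_eq_mul, map_mul, map_mul, hφ,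
      hφ, hp, Fin.sum_univ_two, Fin.sum_univ_two]
    rw [Derivation.leibniz, Derivation.leibniz]
    simp only [smul_eq_mul, map_add, map_mul, MvPolynomial.eval_X, ← JR_apply]
    fin_cases n
    · simp [MvPolynomial.pderiv_X]
      ring
    · simp [MvPolynomial.pderiv_X]
      ring

theorem JR_mul {x : Fin 2 → R} {φ : AR R} (hφ : φ ∈ StR x) (ψ : AR R) :
    JR x (φ * ψ) = JR x ψ * JR x φ := by
  ext a b
  rw [Matrix.mul_apply, JR_apply]
  change MvPolynomial.eval x (MvPolynomial.pderiv b (φ (ψ (MvPolynomial.X a)))) = _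
  rw [chainR hφ]
  rfl

theorem JR_one (x : Fin 2 → R) : JR x (1 : AR R) = 1 := by
  ext a b
  rw [JR_apply]
  change MvPolynomial.eval x (MvPolynomial.pderiv b (MvPolynomial.X a)) = _
  rw [MvPolynomial.pderiv_X, Matrix.one_apply]
  by_cases h : a = b
  · subst h
    simp
  · simp [h]

/-- the linear part along the section `x` (the inverse of the Jacobian matrix) -/
noncomputable def linR (x : Fin 2 → R) : StR x →* Matrix.GeneralLinearGroup (Fin 2) R where
  toFun φ := ⟨JR x (φ⁻¹ : StR x).1, JR x φ.1, by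
    rw [← JR_mul φ.2, Subgroup.coe_inv, mul_inv_cancel, JR_one], by
    rw [← JR_mul (φ⁻¹).2, Subgroup.coe_inv, inv_mul_cancel, JR_one]⟩
  map_one' := by
    apply Units.ext
    change JR x ((1 : StR x)⁻¹ : StR x).1 = 1
    rw [inv_one]
    exact JR_one x
  map_mul' φ ψ := by
    apply Units.ext
    change JR x ((φ * ψ)⁻¹ : StR x).1 = JR x (φ⁻¹ : StR x).1 * JR x (ψ⁻¹ : StR x).1
    rw [← JR_mul (ψ⁻¹).2, mul_inv_rev]
    rfl

end

/-! ## Extension of the scalars to a field -/

section

variable {R : Type} [CommRing R] (F : Type) [Field F] [Algebra R F]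

/-- extension of the coefficients -/
noncomputable def mp : PR R →+* P2 F := MvPolynomial.map (algebraMap R F)

theorem mp_X (a : Fin 2) : mp F (MvPolynomial.X a : PR R) = MvPolynomial.X a :=
  MvPolynomial.map_X _ _

theorem mp_C (r : R) : mp F (MvPolynomial.C r : PR R) = MvPolynomial.C (algebraMap R F r) :=
  MvPolynomial.map_C _ _

theorem aeval_mp (φ : AR R) (p : PR R) :
    MvPolynomial.aeval (fun a => mp F (φ (MvPolynomial.X a))) (mp F p) = mp F (φ p) := by
  have h1 : (((MvPolynomial.aeval (fun a => mp F (φ (MvPolynomial.X a))) : P2 F →ₐ[F] P2 F) :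
      P2 F →+* P2 F).comp (mp F)) = (mp F).comp ((φ : PR R →ₐ[R] PR R) : PR R →+* PR R) := by
    apply MvPolynomial.ringHom_ext
    · intro r
      change MvPolynomial.aeval (fun a => mp F (φ (MvPolynomial.X a)))
        (mp F (MvPolynomial.C r)) = mp F (φ (MvPolynomial.C r))
      have h2 : φ (MvPolynomial.C r) = MvPolynomial.C r := AlgEquiv.commutes φ r
      rw [h2, mp_C]
      exact AlgHom.commutes _ _
    · intro a
      change MvPolynomial.aeval (fun a => mp F (φ (MvPolynomial.X a)))
        (mp F (MvPolynomial.X a)) = mp F (φ (MvPolynomial.X a))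
      rw [mp_X, MvPolynomial.aeval_X]
  exact DFunLike.congr_fun h1 p

/-- extension of the scalars of an automorphism -/
noncomputable def bcF (φ : AR R) : A2 F :=
  mk2 (fun a => mp F (φ (MvPolynomial.X a))) (fun a => mp F (φ⁻¹ (MvPolynomial.X a)))
    (fun a => by
      rw [aeval_mp]
      have h1 : φ (φ⁻¹ (MvPolynomial.X a)) = MvPolynomial.X a := by
        change (φ * φ⁻¹) (MvPolynomial.X a) = _
        rw [mul_inv_cancel]
        rfl
      rw [h1, mp_X])
    (fun a => by
      rw [aeval_mp]
      have h1 : φ⁻¹ (φ (MvPolynomial.X a)) = MvPolynomial.X a := by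
        change (φ⁻¹ * φ) (MvPolynomial.X a) = _
        rw [inv_mul_cancel]
        rfl
      rw [h1, mp_X])

theorem bcF_X (φ : AR R) (a : Fin 2) : bcF F φ (MvPolynomial.X a) = mp F (φ (MvPolynomial.X a)) :=
  mk2_X _ _ _ _ a

theorem bcF_mp (φ : AR R) (p : PR R) : bcF F φ (mp F p) = mp F (φ p) := aeval_mp F φ p

/-- extension of the scalars as a homomorphism -/
noncomputable def bc : AR R →* A2 F where
  toFun := bcF F
  map_one' := by
    refine ext2 (fun a => ?_)
    rw [bcF_X]
    exact mp_X F a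
  map_mul' φ ψ := by
    refine ext2 (fun a => ?_)
    rw [bcF_X]
    change mp F (φ (ψ (MvPolynomial.X a))) = bcF F φ (bcF F ψ (MvPolynomial.X a))
    rw [bcF_X, bcF_mp]

theorem bc_X (φ : AR R) (a : Fin 2) : bc F φ (MvPolynomial.X a) = mp F (φ (MvPolynomial.X a)) :=
  bcF_X F φ a

theorem bc_inj (hι : Function.Injective (algebraMap R F)) :
    Function.Injective (bc F : AR R →* A2 F) := by
  intro φ ψ h
  refine extR (fun a => ?_)
  have h1 : mp F (φ (MvPolynomial.X a)) = mp F (ψ (MvPolynomial.X a)) := by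
    rw [← bc_X, ← bc_X, h]
  exact MvPolynomial.map_injective _ hι h1

theorem eval_mp (x : Fin 2 → R) (p : PR R) :
    MvPolynomial.eval (algebraMap R F ∘ x) (mp F p) = algebraMap R F (MvPolynomial.eval x p) := by
  rw [mp, MvPolynomial.eval_map, MvPolynomial.eval₂_comp]

theorem bc_mem {x : Fin 2 → R} {φ : AR R} (hφ : φ ∈ StR x) :
    bc F φ ∈ Stb (algebraMap R F ∘ x) := by
  refine mem_Stb (fun a => ?_)
  rw [bc_X, eval_mp, hφ, MvPolynomial.eval_X]
  rfl

theorem J_bc (x : Fin 2 → R) (φ : AR R) :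
    J (algebraMap R F ∘ x) (bc F φ) = (JR x φ).map (algebraMap R F) := by
  ext a b
  rw [J_apply, Matrix.map_apply, JR_apply, ← eval_mp, bc_X, mp, MvPolynomial.pderiv_map]

/-- extension of the scalars for the stabilizers -/
noncomputable def bcS (x : Fin 2 → R) : StR x →* Stb (algebraMap R F ∘ x) where
  toFun φ := ⟨bc F φ.1, bc_mem F φ.2⟩
  map_one' := Subtype.ext (map_one (bc F))
  map_mul' φ ψ := Subtype.ext (map_mul (bc F) φ.1 ψ.1)

theorem lin_bcS (x : Fin 2 → R) (φ : StR x) :
    lin (algebraMap R F ∘ x) (bcS F x φ) =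
      Matrix.GeneralLinearGroup.map (algebraMap R F) (linR x φ) := by
  apply Units.ext
  change J (algebraMap R F ∘ x) ((bcS F x φ)⁻¹ : Stb (algebraMap R F ∘ x)).1 =
    (JR x (φ⁻¹ : StR x).1).map (algebraMap R F)
  rw [← J_bc, ← map_inv]
  rfl

end

end Pool.Agent.Q143.RA
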