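import Pool.Agent.Q143.RA.Base

/-!
# Linear automorphisms over a ring and the membership theorem
-/

set_option autoImplicit false
set_option linter.unusedSectionVars false
set_option linter.style.haveILetI false

namespace Pool.Agent.Q143.RA

open Pool.Agent.Y462.SS Pool.Agent.Q152.WP Pool.Agent.Q143.JN Pool.Agent.Q143.BT

section

variable {R : Type} [CommRing R]

/-- the coordinates at the section `x` -/
noncomputable def YR (x : Fin 2 → R) (a : Fin 2) : PR R :=
  MvPolynomial.X a - MvPolynomial.C (x a)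

theorem XR_eq (x : Fin 2 → R) (a : Fin 2) :
    MvPolynomial.X a = MvPolynomial.C (x a) + YR x a := by
  rw [YR]
  ring

theorem map_YR {S : Type} [CommRing S] [Algebra R S] (h : PR R →ₐ[R] S) (x : Fin 2 → R)
    (a : Fin 2) : h (YR x a) = h (MvPolynomial.X a) - algebraMap R S (x a) := by
  rw [YR, map_sub]
  congr 1
  exact AlgHom.commutes h (x a)

theorem extYR {φ ψ : AR R} (x : Fin 2 → R) (h : ∀ a, φ (YR x a) = ψ (YR x a)) : φ = ψ := by
  refine extR (fun a => ?_)
  have h1 := h a
  have h2 := map_YR (φ : PR R →ₐ[R] PR R) x a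
  have h3 := map_YR (ψ : PR R →ₐ[R] PR R) x a
  change φ (YR x a) = φ (MvPolynomial.X a) - _ at h2
  change ψ (YR x a) = ψ (MvPolynomial.X a) - _ at h3
  rw [h2, h3] at h1
  exact sub_left_injective h1

/-- linear combinations of the coordinates -/
noncomputable def lnR (x : Fin 2 → R) (m : Matrix (Fin 2) (Fin 2) R) (a : Fin 2) : PR R :=
  MvPolynomial.C (m a 0) * YR x 0 + MvPolynomial.C (m a 1) * YR x 1

theorem aeval_lnR {S : Type} [CommRing S] [Algebra R S] (h : PR R →ₐ[R] S) (x : Fin 2 → R)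
    (m : Matrix (Fin 2) (Fin 2) R) (a : Fin 2) :
    h (lnR x m a) = algebraMap R S (m a 0) * h (YR x 0) + algebraMap R S (m a 1) * h (YR x 1) := by
  rw [lnR, map_add, map_mul, map_mul]
  congr 1 <;> congr 1 <;> exact AlgHom.commutes h _

theorem lnR_lnR (x : Fin 2 → R) (m n : Matrix (Fin 2) (Fin 2) R) (a : Fin 2) :
    MvPolynomial.C (m a 0) * lnR x n 0 + MvPolynomial.C (m a 1) * lnR x n 1 =
      lnR x (m * n) a := by
  rw [lnR, lnR, lnR, Matrix.mul_apply, Fin.sum_univ_two, Matrix.mul_apply, Fin.sum_univ_two]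
  simp only [map_add, map_mul]
  ring

theorem lnR_one (x : Fin 2 → R) (a : Fin 2) : lnR x 1 a = YR x a := by
  rw [lnR]
  fin_cases a
  · change MvPolynomial.C ((1 : Matrix (Fin 2) (Fin 2) R) 0 0) * YR x 0 +
      MvPolynomial.C ((1 : Matrix (Fin 2) (Fin 2) R) 0 1) * YR x 1 = YR x 0
    rw [Matrix.one_apply_eq, Matrix.one_apply_ne (by decide), map_one, map_zero]
    ring
  · change MvPolynomial.C ((1 : Matrix (Fin 2) (Fin 2) R) 1 0) * YR x 0 +
      MvPolynomial.C ((1 : Matrix (Fin 2) (Fin 2) R) 1 1) * YR x 1 = YR x 1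
    rw [Matrix.one_apply_eq, Matrix.one_apply_ne (by decide), map_one, map_zero]
    ring

theorem aeval_Y_lnR (x : Fin 2 → R) (m : Matrix (Fin 2) (Fin 2) R) (a : Fin 2) :
    MvPolynomial.aeval (fun a => MvPolynomial.C (x a) + lnR x m a) (YR x a) = lnR x m a := by
  rw [map_YR, MvPolynomial.aeval_X, MvPolynomial.algebraMap_eq, add_sub_cancel_left]

theorem aeval_ln_lnR (x : Fin 2 → R) (m n : Matrix (Fin 2) (Fin 2) R) (h : n * m = 1)
    (a : Fin 2) : MvPolynomial.aeval (fun a => MvPolynomial.C (x a) + lnR x m a)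
      (MvPolynomial.C (x a) + lnR x n a) = MvPolynomial.X a := by
  rw [map_add, aeval_lnR, aeval_Y_lnR, aeval_Y_lnR, MvPolynomial.algebraMap_eq, lnR_lnR, h,
    lnR_one, ← MvPolynomial.algebraMap_eq, AlgHom.commutes, MvPolynomial.algebraMap_eq, ← XR_eq]

/-- the linear automorphisms at the section `x` -/
noncomputable def liR (x : Fin 2 → R) (g : Matrix.GeneralLinearGroup (Fin 2) R) : AR R :=
  mkR (fun a => MvPolynomial.C (x a) + lnR x (g⁻¹).1 a)
    (fun a => MvPolynomial.C (x a) + lnR x g.1 a)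
    (aeval_ln_lnR x _ _ (Units.mul_inv g)) (aeval_ln_lnR x _ _ (Units.inv_mul g))

theorem liR_X (x : Fin 2 → R) (g : Matrix.GeneralLinearGroup (Fin 2) R) (a : Fin 2) :
    liR x g (MvPolynomial.X a) = MvPolynomial.C (x a) + lnR x (g⁻¹).1 a := mkR_X _ _ _ _ a

theorem liR_Y (x : Fin 2 → R) (g : Matrix.GeneralLinearGroup (Fin 2) R) (a : Fin 2) :
    liR x g (YR x a) = lnR x (g⁻¹).1 a :=
  aeval_Y_lnR x _ a

theorem liR_mul (x : Fin 2 → R) (g h : Matrix.GeneralLinearGroup (Fin 2) R) :
    liR x (g * h) = liR x g * liR x h := by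
  refine extYR x (fun a => ?_)
  change _ = liR x g (liR x h (YR x a))
  rw [liR_Y, liR_Y]
  have h1 := aeval_lnR (liR x g : PR R →ₐ[R] PR R) x (h⁻¹).1 a
  change liR x g _ = _ * liR x g _ + _ * liR x g _ at h1
  rw [h1, liR_Y, liR_Y, MvPolynomial.algebraMap_eq, lnR_lnR, mul_inv_rev, Units.val_mul]

theorem liR_one (x : Fin 2 → R) : liR x (1 : Matrix.GeneralLinearGroup (Fin 2) R) = 1 := by
  refine extYR x (fun a => ?_)
  rw [liR_Y, inv_one, Units.val_one, lnR_one]
  rfl

theorem liR_mem (x : Fin 2 → R) (g : Matrix.GeneralLinearGroup (Fin 2) R) : liR x g ∈ StR x := by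
  intro p
  have h1 : ((MvPolynomial.aeval x : PR R →ₐ[R] R).comp (liR x g : PR R →ₐ[R] PR R)) =
      MvPolynomial.aeval x := by
    refine MvPolynomial.algHom_ext (fun a => ?_)
    rw [AlgHom.comp_apply, MvPolynomial.aeval_X]
    change MvPolynomial.aeval x (liR x g (MvPolynomial.X a)) = x a
    rw [liR_X, lnR, YR, YR]
    simp
  exact DFunLike.congr_fun h1 p

variable (F : Type) [Field F] [Algebra R F]

theorem mp_YR (x : Fin 2 → R) (a : Fin 2) : mp F (YR x a) = Y (algebraMap R F ∘ x) a := by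
  rw [YR, Y, map_sub, mp_X, mp_C]
  rfl

theorem bc_li (x : Fin 2 → R) (g : Matrix.GeneralLinearGroup (Fin 2) R) :
    bc F (liR x g) = li (algebraMap R F ∘ x) (Matrix.GeneralLinearGroup.map (algebraMap R F) g) := by
  refine extY (algebraMap R F ∘ x) (fun a => ?_)
  rw [li_Y, ← mp_YR]
  change bcF F (liR x g) (mp F (YR x a)) = _
  rw [bcF_mp, liR_Y, lnR, ln, map_add, map_mul, map_mul, mp_C, mp_C, mp_YR, mp_YR, ← map_inv]
  rfl

end

section

variable {C : ∀ (G : Type) [Group G], Prop}

/-- the automorphisms that fix the section `x` and are tame over the field of fractions -/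
noncomputable def TS {R : Type} [CommRing R] [IsDomain R] (x : Fin 2 → R) : Subgroup (AR R) :=
  StR x ⊓ (Tame (FractionRing R)).comap (bc (FractionRing R))

theorem ra_mem (hC : Closed C) (hE : ExtClosed C)
    (hS : ∀ (G : Type) [Group G], Group.IsSolvable G → C G) {R : Type} [CommRing R] [IsDomain R]
    (x : Fin 2 → R) (Γ : Subgroup (AR R)) (hΓ : Γ ≤ TS x)
    (hQ : C ((Γ.subgroupOf (StR x)).map (linR x))) : C Γ := by
  classical
  set F := FractionRing R with hF
  have hι : Function.Injective (algebraMap R F) := IsFractionRing.injective R F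
  have hinj := bc_inj (R := R) F hι
  have hg : Function.Injective (Matrix.GeneralLinearGroup.map (n := Fin 2) (algebraMap R F)) := by
    intro a b hab
    apply Units.ext
    ext i j
    have h1 := congrArg (fun w : Matrix.GeneralLinearGroup (Fin 2) F => w.1 i j) hab
    exact hι h1
  have h2 : C (Γ.map (bc F)) := by
    refine tame_mem hC hE hS (Γ.map (bc F)) ?_ (algebraMap R F ∘ x) ?_ ?_
    · rintro _ ⟨φ, hφ, rfl⟩
      exact (hΓ hφ).2
    · refine (Set.finite_singleton (algebraMap R F ∘ x)).subset ?_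
      rintro y ⟨_, ⟨φ, hφ, rfl⟩, rfl⟩
      exact mem_Stb_iff.1 (bc_mem F (hΓ hφ).1)
    · have h3 : C ((((Γ.subgroupOf (StR x)).map (linR x))).map
          (Matrix.GeneralLinearGroup.map (algebraMap R F))) := by
        let e := Subgroup.equivMapOfInjective ((Γ.subgroupOf (StR x)).map (linR x)) _ hg
        exact hC.of_injective _ _ e.symm.toMonoidHom e.symm.injective hQ
      have h4 : (((Γ.map (bc F)).subgroupOf (Stb (algebraMap R F ∘ x))).map
          (lin (algebraMap R F ∘ x))) ≤ ((((Γ.subgroupOf (StR x)).map (linR x))).map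
          (Matrix.GeneralLinearGroup.map (algebraMap R F))) := by
        rintro _ ⟨ψ, hψ, rfl⟩
        obtain ⟨φ, hφ, h5⟩ := hψ
        have h6 : ψ = bcS F x ⟨φ, (hΓ hφ).1⟩ := Subtype.ext h5.symm
        rw [h6, lin_bcS]
        exact ⟨_, ⟨_, hφ, rfl⟩, rfl⟩
      exact hC.of_injective _ _ (Subgroup.inclusion h4) (Subgroup.inclusion_injective h4) h3
  exact hC.of_injective _ _ (Subgroup.equivMapOfInjective Γ _ hinj).toMonoidHom
    (Subgroup.equivMapOfInjective Γ _ hinj).injective h2

/-- the linear automorphisms are tame -/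
theorem li_TS {R : Type} [CommRing R] [IsDomain R] (x : Fin 2 → R)
    (g : Matrix.GeneralLinearGroup (Fin 2) R) : liR x g ∈ TS x := by
  refine ⟨liR_mem x g, ?_⟩
  change bc (FractionRing R) (liR x g) ∈ Tame (FractionRing R)
  rw [bc_li]
  exact li_tame _ _

theorem ts_iff (hC : Closed C) (hE : ExtClosed C)
    (hS : ∀ (G : Type) [Group G], Group.IsSolvable G → C G) {R : Type} [CommRing R] [IsDomain R]
    (x : Fin 2 → R) : C (TS x) ↔ C (Matrix.GeneralLinearGroup (Fin 2) R) := by
  constructor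
  · intro h
    refine hC.of_injective _ _ ({ toFun := fun g => ⟨liR x g, li_TS x g⟩
                                  map_one' := Subtype.ext (liR_one x)
                                  map_mul' := fun g h => Subtype.ext (liR_mul x g h) } :
      Matrix.GeneralLinearGroup (Fin 2) R →* TS x) ?_ h
    intro a b hab
    have h1 : liR x a = liR x b := congrArg Subtype.val hab
    have h2 : ∀ i j, (a⁻¹).1 i j = (b⁻¹).1 i j := by
      intro i j
      have h3 : lnR x (a⁻¹).1 i = lnR x (b⁻¹).1 i := by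
        have h4 := liR_Y x a i
        rw [h1, liR_Y] at h4
        exact h4.symm
      have h4 := congrArg (fun p => MvPolynomial.eval x (MvPolynomial.pderiv j p)) h3
      simp only [lnR, YR, map_add, Derivation.leibniz, MvPolynomial.pderiv_C, map_sub,
        MvPolynomial.pderiv_X, smul_eq_mul, map_mul, MvPolynomial.eval_C] at h4
      fin_cases j
      · simpa using h4
      · simpa using h4
    have h5 : a⁻¹ = b⁻¹ := Units.ext (Matrix.ext h2)
    exact inv_injective h5
  · intro h
    refine ra_mem hC hE hS x _ le_rfl ?_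
    exact hC.of_injective _ _ (Subgroup.subtype _) (Subgroup.subtype_injective _) h

/-- base rings with a degree function -/
theorem deg_ra_mem (hC : Closed C) (hE : ExtClosed C)
    (hS : ∀ (G : Type) [Group G], Group.IsSolvable G → C G) {A B : Type} [CommRing A] [IsDomain A]
    [CommRing B] {deg : A → ℕ} (h : DegFun deg) (ε : A →+* B)
    (hε : ∀ a, ε a = 0 → a ≠ 0 → 0 < deg a) (x : Fin 2 → A) (Γ : Subgroup (AR A))
    (hΓ : Γ ≤ TS x)
    (hQ : C (((Γ.subgroupOf (StR x)).map (linR x)).map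
      (Matrix.GeneralLinearGroup.map ε))) : C Γ :=
  ra_mem hC hE hS x Γ hΓ (gl_mem hC hE hS h ε hε _ hQ)

/-- polynomial rings as base rings -/
theorem mv_mem (hC : Closed C) (hE : ExtClosed C)
    (hS : ∀ (G : Type) [Group G], Group.IsSolvable G → C G) (σ D : Type) [CommRing D] [IsDomain D]
    (x : Fin 2 → MvPolynomial σ D) (p : σ → D) (Γ : Subgroup (AR (MvPolynomial σ D)))
    (hΓ : Γ ≤ TS x)
    (hQ : C (((Γ.subgroupOf (StR x)).map (linR x)).map
      (Matrix.GeneralLinearGroup.map (MvPolynomial.eval p)))) : C Γ :=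
  ra_mem hC hE hS x Γ hΓ (gl_mem hC hE hS (degFun_mv σ D) (MvPolynomial.eval p)
    (mv_pos σ D p) _ hQ)

theorem mv_ts_iff (hC : Closed C) (hE : ExtClosed C)
    (hS : ∀ (G : Type) [Group G], Group.IsSolvable G → C G) (σ D : Type) [CommRing D] [IsDomain D]
    (x : Fin 2 → MvPolynomial σ D) :
    C (TS x) ↔ C (Matrix.GeneralLinearGroup (Fin 2) D) :=
  (ts_iff hC hE hS x).trans (mv_iff hC hE hS σ D)

end

end Pool.Agent.Q143.RA
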